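import Pool.Agent.TH689.GXMain
import Pool.Agent.TH689.GXUpper

/-!
# Randomized convex programs need brute force for the clique problem, with every gap

The definitions used in the statement (all in `Pool/Agent/TH689/GXDefs.lean`):

* `Vtx k N`: the vertices, `k` parts with `N` vertices each. A possible solution is a choice
  `x : Fin k → Fin N` of one vertex in each part.
* `Both C x`: the choice `x` contains both vertices of the pair `C`.
* `nonEdges G`: the pairs of vertices of different parts which are not adjacent in `G`; a choice is
  a clique of `G` if and only if it contains no such pair.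
* `Scheme X 𝒞 a s r D`: the schemes of mixed-integer convex programming relaxations, with `a` binary
  variables, `s` convex constraints of dimension `D` which are common to all graphs and `r` such
  constraints for every pair of vertices which is not adjacent. A constraint says that the value of
  an affine map to `ℝ ^ D` lies in an arbitrary convex set. There are any number of real variables
  and linear equations. Every choice has a vector, about which nothing is assumed.
* `P.CorrectAt Both x`: the vector of `x` satisfies the common constraints, the constraints
  of the pairs which are not contained in `x`, and its binary variables are `0` or `1`; so it is a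
  solution of the relaxation of every graph in which `x` is a clique.
* `P.Refutes Both (nonEdges G) δ`: the relaxation claims, with an error `δ`, that `G` has no clique
  with one vertex in each part.
* `P.correctRate Both`: the fraction of the choices at which `P` is correct.
* `P.refutedRate Both F δ`: the fraction of the instances of the list `F` which are refuted with the
  error `δ`.
-/

set_option autoImplicit false

namespace Pool.Agent.Results.MP_ba3460_lc.ConvexProgramsForClique

open Filter Pool.Agent.TH689.GX

/-- Let `1 ≤ h < k` and `ε > 0`. There is a `c ≥ 1` such that for all large `N` there is a finite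
list `G` of graphs with `k` parts with `N` vertices each, none of which has a clique with `h + 1`
vertices, with the following property. Let `P ω` be a randomized scheme of mixed-integer convex
programming relaxations of the problem to find a clique with one vertex in each part, where `ω` has
the probability `p ω`, with constraints of dimension `D`, where `D ^ c ≤ N`, and with
`2 ^ a * (s + (r + 1) * (k * N) ^ 2) < N ^ ((1 - ε) * (h + 1))`. Then the probability that the
scheme is correct at a random choice of `k` vertices plus the probability that it refutes a random
graph of the list with the error `N ^ (-1 / c)` is less than `1 + N ^ (-1 / c)`.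

Conversely, for graphs with `h + 1 + l` parts with `N > 0` vertices each and every
`S ≤ N ^ (h + 1)` there is a scheme with `S` linear inequalities and one more for every pair which is
not adjacent, which is correct at a fraction `S / N ^ (h + 1)` of the choices and refutes every graph
`G` without cliques with `h + 1` vertices with every error `δ < 1 / (number of the pairs)`. -/
theorem result :
    (∀ k h : ℕ, 1 ≤ h → h < k → ∀ ε : ℝ, 0 < ε →
      ∃ c : ℕ, 1 ≤ c ∧ ∀ᶠ N : ℕ in atTop,
        ∃ (M : ℕ) (G : Fin M → SimpleGraph (Vtx k N)), 0 < M ∧ (∀ i, (G i).CliqueFree (h + 1)) ∧
        ∀ D : ℕ, D ^ c ≤ N → ∀ (Ω : Type) [Fintype Ω] (p : Ω → ℝ), (∀ ω, 0 ≤ p ω) →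
          ∑ ω, p ω = 1 → ∀ (a s r : Ω → ℕ)
          (P : ∀ ω, Scheme (Fin k → Fin N) (Vtx k N × Vtx k N) (a ω) (s ω) (r ω) D),
          (∀ ω, (2 : ℝ) ^ a ω * (s ω + (r ω + 1) * (k * N) ^ 2)
            < (N : ℝ) ^ ((1 - ε) * (h + 1))) →
          ∑ ω, p ω * ((P ω).correctRate Both
              + (P ω).refutedRate Both (fun i => nonEdges (G i)) ((N : ℝ) ^ (-(1 / (c : ℝ)))))
            < 1 + (N : ℝ) ^ (-(1 / (c : ℝ)))) ∧
    ∀ h l N S : ℕ, 0 < N → S ≤ N ^ (h + 1) →
      ∃ P : Scheme (Fin (h + 1 + l) → Fin N) (Vtx (h + 1 + l) N × Vtx (h + 1 + l) N) 0 S 1 1,
        P.correctRate Both = (S : ℝ) / N ^ (h + 1) ∧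
        ∀ G : SimpleGraph (Vtx (h + 1 + l) N), G.CliqueFree (h + 1) → ∀ δ : ℝ, 0 ≤ δ →
          (nonEdges G).card * δ < 1 → P.Refutes Both (nonEdges G) δ :=
  ⟨gx_main, gx_upper⟩

end Pool.Agent.Results.MP_ba3460_lc.ConvexProgramsForClique
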