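import Pool.Agent.TH700.PT.CliqueMain

/-!
# Gap clique needs tensor networks of size `n ^ (c k)`, even with cancellations

A tree tensor network `Net K V W` (`Pool/Agent/TH700/TN/Defs.lean`) has leaves that read one bit
each (with a vector in `K ^ W` for each value of the bit); an inner node combines the vectors of its
two children by an arbitrary bilinear map. It accepts the input `x` if a linear form of the vector
of the root is not zero. The field `K` and the weights are arbitrary, so there may be cancellations.
The tree is arbitrary; if every right child is a leaf then this is a matrix product (a weighted
ordered read-once branching program, for instance a read-once parity program for any order of the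
bits). The size is the number of nodes times the bond dimension `card W`.

The input is a graph with `n` vertices, one bit for each pair. For every gap `g` there is a
constant `D` such that for all `D ≤ s ≤ n` networks which read every bit at most once, accept all
graphs with a clique of `s` vertices, and reject all graphs in which every clique has less than
`s / g` vertices, have size `X` with `n ^ s ≤ (D s) ^ (2 s) * X ^ D`. So `X ≥ n ^ (s / (2 D))` if
`n ≥ (D s) ^ 4`: no size `f(s) n ^ o(s)`, in particular no fpt size `f(s) n ^ c`, for any constant
ratio of approximation. This holds up to the factor `2 ^ μ` also for random networks which never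
accept such a graph without large cliques and accept every graph with an `s`-clique with probability
at least `2 ^ (- μ)` (the deterministic case is `R = Unit`, `μ = 0`).

Conversely the number of `s`-cliques is computed by a linear network over `ℚ` of size
`(n (n + 1) - 1) (n choose s)` which reads every bit once.

Proof: The nodes of the tree give a partition of the pairs of vertices into `t = 514 g ^ 2` parts,
each of them the set of the bits read between at most three nodes, such that every part contains
few of the pairs of a given set of `s` vertices. So every part has rank at most the cube of the bond
dimension (Tucker ranks of disjoint sets of variables multiply). Take many sets of `s` vertices of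
which any two share few vertices, with the same partition. The graph whose edges in each part are
those of the clique on one of the sets, different ones for different parts, has only small cliques:
its vertices which are in only one of the sets would form a clique in one part. So the network
rejects all these mixtures. But if there were more than `t` times the rank many sets then one could
choose disjoint bases for the parts, and replace the restrictions of a further clique to the parts,
one after the other, by members of these bases: so the network would reject this clique.
-/

set_option autoImplicit false

namespace Pool.Agent.Results.MP_ba3460_lc.GapCliqueTensorNetworks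

open Pool.Agent.TH700.TN Pool.Agent.TH700.PT

theorem result :
    (∀ g : ℕ, 1 ≤ g → ∃ D : ℕ, ∀ s n : ℕ, D ≤ s → s ≤ n →
      ∀ (μ : ℕ) (R : Type) [Fintype R] [Nonempty R] (K W : R → Type) [∀ ρ, Field (K ρ)]
        [∀ ρ, Fintype (W ρ)] (T : ∀ ρ, Net (K ρ) (Sym2 (Fin n)) (W ρ)) (a : ∀ ρ, W ρ → K ρ),
        (∀ ρ e, (T ρ).reads e ≤ 1) →
        (∀ ρ x, (∀ Q, Clique x Q → g * Q.card < s) → (T ρ).value (a ρ) x = 0) →
        (∀ x, (∃ Q, Clique x Q ∧ Q.card = s) →
          Nat.card R ≤ 2 ^ μ * Nat.card {ρ // (T ρ).value (a ρ) x ≠ 0}) →
        ∃ ρ, n ^ s ≤ (D * s) ^ (2 * s) * (2 ^ μ * ((T ρ).size * Fintype.card (W ρ))) ^ D) ∧
    (∀ s n : ℕ, 1 ≤ n →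
      ∃ (T : Net ℚ (Sym2 (Fin n)) {Q : Finset (Fin n) // Q.card = s})
        (a : {Q : Finset (Fin n) // Q.card = s} → ℚ),
        T.Linear ∧ (∀ e, T.reads e = 1) ∧ T.size = n * (n + 1) - 1 ∧
          ∀ x, T.value a x ≠ 0 ↔ ∃ Q, Clique x Q ∧ Q.card = s) :=
  ⟨fun _ hg => main hg, fun s _ hn => upper s hn⟩

end Pool.Agent.Results.MP_ba3460_lc.GapCliqueTensorNetworks
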