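import Pool.Agent.TH708.Shr.ClqDup

set_option autoImplicit false

/-!
# Circuits for `k`-clique in which few edges are read both below a gate and outside of it

Circuits with `s` nodes which decide whether a graph on `n + 1` vertices has a clique of `k + 1`
vertices.  The edges at one vertex are the `n` tracked bits `y`; the rest of the graph is `G`.  The
leaves are the literals of the tracked bits and arbitrary predicates of `G`; AND gates have fan-in two,
OR gates any fan-in.  A tracked bit is duplicated at a node if a literal of it lies below the node and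
another one lies below the other input of an AND gate, on some path from the output down to the
node.  (There are no duplicated bits in decomposable circuits.)  If at most `m` tracked bits are
duplicated at each node, then `s ≥ (n / m) ^ (k / 12) / 2 ^ (k ^ 2)`.  So there are no such circuits
of size `f(k) * n ^ o(k)` with at most `n ^ (1 - ε)` duplicated bits at each node.

Proof idea: let the vertices of `G` be the vectors over the field with two elements, in `k` copies, and
join two vectors of different copies if their inner product is the prescribed one; by pigeonhole there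
are at least `N ^ k / 2 ^ (k ^ 2)` tuples of pairwise joined vectors.  The cliques which are accepted
at the same gate and agree on its duplicated bits can be mixed.  A set of vectors and a set of vectors
with constant inner products have sizes with product at most `N`.  A duplicated bit in the clique
costs a factor `m` for the choice of the class, but fixes one of the vectors.
-/

namespace Pool.Agent.Results.MP_ba3460_lc.SharedEdges

open Finset Filter Topology
open Pool.Agent.TH708.Shr

theorem bound {k n s m : ℕ} (C : Net (SimpleGraph (Fin n)) n s) (o : Fin s) (hk : 2 ≤ k)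
    (hm : 1 ≤ m) (h2 : ∀ g l, C g = Kind.and l → l.card ≤ 2)
    (hd : ∀ g, (dup C o g).ncard ≤ m)
    (hC : ∀ G y, Val C G y o ↔ ¬ (apex G y).CliqueFree (k + 1)) :
    n ^ k ≤ (2 ^ (k ^ 2) * s) ^ 12 * m ^ k :=
  clique_dup hk hm (fun h j hr => card_dupPre h2 hd h j hr) hC

theorem result :
    (∀ (k n s m : ℕ) (C : Net (SimpleGraph (Fin n)) n s) (o : Fin s), 2 ≤ k → 1 ≤ m →
      (∀ g l, C g = Kind.and l → l.card ≤ 2) → (∀ g, (dup C o g).ncard ≤ m) →
      (∀ G y, Val C G y o ↔ ¬ (apex G y).CliqueFree (k + 1)) →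
        n ^ k ≤ (2 ^ (k ^ 2) * s) ^ 12 * m ^ k) ∧
    ∀ ε : ℝ, 0 < ε → ε ≤ 1 → ¬ ∃ (f : ℕ → ℕ) (g : ℕ → ℝ),
      Tendsto (fun k : ℕ => g k / k) atTop (𝓝 0) ∧
      ∀ k n : ℕ, 2 ≤ k → 1 ≤ n → ∃ (s : ℕ) (C : Net (SimpleGraph (Fin n)) n s) (o : Fin s),
        (∀ g l, C g = Kind.and l → l.card ≤ 2) ∧
        (∀ g, ((dup C o g).ncard : ℝ) ≤ (n : ℝ) ^ (1 - ε)) ∧
        (∀ G y, Val C G y o ↔ ¬ (apex G y).CliqueFree (k + 1)) ∧
        (s : ℝ) ≤ f k * (n : ℝ) ^ g k := by
  refine ⟨fun k n s m C o hk hm h2 hd hC => bound C o hk hm h2 hd hC, ?_⟩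
  rintro ε hε hε1 ⟨f, g, hg, H⟩
  have h1 : ∀ᶠ k : ℕ in atTop, g k / k < ε / 24 := hg.eventually_lt_const (by positivity)
  obtain ⟨k, hk1, hk2⟩ := (h1.and (eventually_ge_atTop 2)).exists
  have hkpos : (0 : ℝ) < k := by
    have : 0 < k := by omega
    exact_mod_cast this
  have hgk : g k ≤ ε / 24 * k := by
    rw [div_lt_iff₀ hkpos] at hk1
    linarith
  obtain ⟨t, ht⟩ := exists_nat_gt ((24 * ((k : ℝ) ^ 2 + f k)) / (ε * k))
  obtain ⟨s, C, o, h2, h3, h4, h5⟩ := H k (2 ^ t) hk2 Nat.one_le_two_pow
  have hnr : (((2 : ℕ) ^ t : ℕ) : ℝ) = (2 : ℝ) ^ (t : ℝ) := by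
    push_cast; rw [Real.rpow_natCast]
  -- the number of duplicated bits
  obtain ⟨m, hm⟩ : ∃ m, m = max 1 ⌊(((2 : ℕ) ^ t : ℕ) : ℝ) ^ (1 - ε)⌋₊ := ⟨_, rfl⟩
  have hm1 : 1 ≤ m := by rw [hm]; exact le_max_left _ _
  have hd : ∀ g, (dup C o g).ncard ≤ m := by
    intro g
    rw [hm]
    exact (Nat.le_floor (h3 g)).trans (le_max_right _ _)
  have h6 := bound C o hk2 hm1 h2 hd h4
  have hs1 : (1 : ℝ) ≤ s := by
    have : 1 ≤ s := by have := o.2; omega
    exact_mod_cast this
  have htpos : (0 : ℝ) ≤ t := Nat.cast_nonneg _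
  have hms : (m : ℝ) ≤ 2 ^ (t * max (1 - ε) 0) := by
    rw [hm, Nat.cast_max]
    apply max_le
    · rw [Nat.cast_one]
      exact Real.one_le_rpow (by norm_num) (mul_nonneg htpos (le_max_right _ _))
    · refine (Nat.floor_le (by positivity)).trans ?_
      rw [hnr, ← Real.rpow_mul (by norm_num)]
      apply Real.rpow_le_rpow_of_exponent_le (by norm_num)
      exact mul_le_mul_of_nonneg_left (le_max_left _ _) htpos
  have hss : (s : ℝ) ≤ 2 ^ ((f k : ℝ) + t * (ε / 24 * k)) := by
    refine h5.trans ?_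
    rw [hnr, ← Real.rpow_mul (by norm_num), Real.rpow_add (by norm_num)]
    refine mul_le_mul ?_ ?_ (by positivity) (by positivity)
    · rw [Real.rpow_natCast]
      have : f k < 2 ^ f k := Nat.lt_two_pow_self
      exact_mod_cast this.le
    · apply Real.rpow_le_rpow_of_exponent_le (by norm_num)
      exact mul_le_mul_of_nonneg_left hgk htpos
  have h7 : (2 : ℝ) ^ ((t : ℝ) * k) ≤
      2 ^ ((((k : ℝ) ^ 2 + ((f k : ℝ) + t * (ε / 24 * k))) * 12) + t * max (1 - ε) 0 * k) := by
    have e1 : (2 : ℝ) ^ ((t : ℝ) * k) = (((2 : ℕ) ^ t : ℕ) : ℝ) ^ k := by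
      rw [hnr, Real.rpow_mul (by norm_num), Real.rpow_natCast _ k]
    have e2 : ((((2 : ℕ) ^ t : ℕ) : ℝ)) ^ k ≤ ((2 : ℝ) ^ (k ^ 2) * s) ^ 12 * (m : ℝ) ^ k := by
      exact_mod_cast h6
    rw [e1]
    refine e2.trans ?_
    rw [Real.rpow_add (by norm_num)]
    refine mul_le_mul ?_ ?_ (by positivity) (by positivity)
    · rw [show (12 : ℝ) = ((12 : ℕ) : ℝ) by norm_num, Real.rpow_mul (by norm_num),
        Real.rpow_natCast _ 12, Real.rpow_add (by norm_num)]
      refine pow_le_pow_left₀ (by positivity) ?_ 12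
      refine mul_le_mul (le_of_eq ?_) hss (by positivity) (by positivity)
      rw [← Nat.cast_pow, Real.rpow_natCast]
    · rw [Real.rpow_mul (by norm_num), Real.rpow_natCast _ k]
      exact pow_le_pow_left₀ (by positivity) hms k
  have h8 := (Real.rpow_le_rpow_left_iff (by norm_num : (1 : ℝ) < 2)).1 h7
  have h9 : 24 * ((k : ℝ) ^ 2 + f k) < t * (ε * k) := by
    rwa [div_lt_iff₀ (by positivity)] at ht
  rw [max_eq_left (by linarith)] at h8
  nlinarith

end Pool.Agent.Results.MP_ba3460_lc.SharedEdges
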