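import Pool.Agent.TH762.FP.Tfae

/-!
# `FPT` and `W[1]`: excluding one value of the number of yes instances

A parameterized problem is a set of pairs `(x, k)` of a string and a parameter. `InFPT`,
`FptReduces` and `PClique` (`p-Clique` for graphs given by lists of vertices and edges) are defined in
`Pool.Agent.TH762.FP.Defs`; fixed-parameter algorithms are polynomial-time algorithms which get,
together with the input, a string `θ k`, where `θ` is a computable function (the well-known
characterization by a precomputation on the parameter). `FPT = W[1]` if and only if `p-Clique` is in
`FPT`, and a problem `A` is hard for `W[1]` if and only if `FptReduces PClique A`.

Consider `m` instances of length at most `n` with parameters at most `κ` of a problem `A`, where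
`m = m (n, κ)` is any number at most `(n + f κ) ^ b + b`.

* `FptFeasible (ExcludeSorted A)`: some fixed-parameter algorithm, with `O (log (n + f κ))` bits of
  advice for every pair `(n, κ)`, excludes one of the `m + 1` sorted vectors `1 ^ c 0 ^ (m - c)` as the
  vector of the answers; it does not matter what it does if the vector of the answers is not sorted,
  as long as its result is at most `m`.
* `FptFeasible (ExcludeCount A)`: some such algorithm excludes one of the `m + 1` values of the number
  of yes instances.
* `FptCountQuestions A`: the number of yes instances can be computed by such an algorithm with at most
  `log₂ m` (rounded down) adaptive questions to some oracle, which may be any set of strings.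

Each of these statements for some set `A` that is hard for `W[1]` is equivalent to `FPT = W[1]`.

Proof. The tuples of vertices which can be extended to a clique of `k` vertices form a tree. The
question if the lexicographically largest tuple of its length in this tree is at least `u` is the
question if one of polynomially many graphs (for the tuples that branch off to the right of `u`, the
subgraph of the vertices that are in the tuple or adjacent to all of it) has a clique of `k`
vertices, and this is a question about the disjoint union of these graphs, with the same `k`. So for
tuples `u₁ > ⋯ > u_m` the vector of the answers is sorted in the reverse order, and if the vector
number `c` is excluded, one tuple is discarded. The candidates of one level of the tree are reduced to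
at most `m`, there are `k` levels, and all questions have parameters at most `g k`.
-/

set_option autoImplicit false

namespace Pool.Agent.Results.MP_ba3460_lc.SortedExclusion

open Pool.Agent.TH762.FP

/-- **The exclusion law for `W[1]`.** -/
theorem result : List.TFAE
    [InFPT PClique,
      ∃ A : Set (List Bool × ℕ), FptReduces PClique A ∧ FptFeasible (ExcludeSorted A),
      ∃ A : Set (List Bool × ℕ), FptReduces PClique A ∧ FptFeasible (ExcludeCount A),
      ∃ A : Set (List Bool × ℕ), FptReduces PClique A ∧ FptCountQuestions A] :=
  clique_law

end Pool.Agent.Results.MP_ba3460_lc.SortedExclusion
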